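import Pool.Agent.Y203.EQ.Phase
import Pool.Agent.W765.KB

/-! Attracting blocks relative to the compact set of bounded orbits give a splitting. -/

set_option autoImplicit false

open MeasureTheory Filter Topology
open scoped ENNReal NNReal

namespace Pool.Agent.Y203.EQ

open Pool.Agent.Helper179.KS Pool.Agent.Helper179.Eq Pool.Agent.Y203.HN

/-- A compact forward invariant set carries an invariant probability measure. -/
theorem exists_measure {F : ℂ × ℂ → ℂ × ℂ} (hF : Continuous F) {C : Set (ℂ × ℂ)}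
    (hC : IsCompact C) (hne : C.Nonempty) (hinv : ∀ z ∈ C, F z ∈ C) :
    ∃ ν : Measure (ℂ × ℂ), IsProbabilityMeasure ν ∧ MeasurePreserving F ν ν ∧ ν Cᶜ = 0 := by
  have : CompactSpace C := isCompact_iff_compactSpace.1 hC
  let T : C → C := fun z => ⟨F z.1, hinv z.1 z.2⟩
  have hT : Continuous T := (hF.comp continuous_subtype_val).subtype_mk _
  obtain ⟨z₀, hz₀⟩ := hne
  obtain ⟨P, hP, hPT, _⟩ := Pool.Agent.W765.KB.kb hT ⟨z₀, hz₀⟩ (fun _ => 0) (fun n => n + 1)
    (tendsto_add_atTop_nat 1) (fun L => Nat.succ_pos L)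
  have hm : Measurable (Subtype.val : C → ℂ × ℂ) := measurable_subtype_coe
  refine ⟨P.map Subtype.val, Measure.isProbabilityMeasure_map hm.aemeasurable,
    ⟨hF.measurable, ?_⟩, ?_⟩
  · rw [Measure.map_map hF.measurable hm]
    have h1 : F ∘ (Subtype.val : C → ℂ × ℂ) = Subtype.val ∘ T := rfl
    rw [h1, ← Measure.map_map hm hT.measurable, hPT.map_eq]
  · rw [Measure.map_apply hm hC.measurableSet.compl]
    have : (Subtype.val : C → ℂ × ℂ) ⁻¹' Cᶜ = ∅ := by
      ext z
      simp
    rw [this, measure_empty]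

/-- The facts about a complex Henon map `f` with inverse `g` and compact set `K` of bounded orbits
that are used. -/
structure Nice (f g : ℂ × ℂ → ℂ × ℂ) (K : Set (ℂ × ℂ)) (H : ℝ) : Prop where
  cont : Continuous f
  cont' : Continuous g
  left : ∀ z, g (f z) = z
  right : ∀ z, f (g z) = z
  cpt : IsCompact K
  fwd : ∀ z ∈ K, f z ∈ K
  bwd : ∀ z ∈ K, g z ∈ K
  supp : ∀ ν : Measure (ℂ × ℂ), IsInvariantProb f ν → ∀ᵐ z ∂ν, z ∈ K
  bound : ∀ ν : Measure (ℂ × ℂ), IsInvariantProb f ν → ksEntropy ν f ≤ (H : EReal)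

variable {f g : ℂ × ℂ → ℂ × ℂ} {K : Set (ℂ × ℂ)} {H : ℝ}

lemma Nice.inj (N : Nice f g K H) : Function.Injective f := Function.LeftInverse.injective N.left

lemma Nice.mp (N : Nice f g K H) {ν : Measure (ℂ × ℂ)}
    (hT : MeasurePreserving f ν ν) : MeasurePreserving g ν ν := by
  refine ⟨N.cont'.measurable, ?_⟩
  conv_lhs => rw [← hT.map_eq]
  rw [Measure.map_map N.cont'.measurable N.cont.measurable]
  have : g ∘ f = id := funext N.left
  rw [this, Measure.map_id]

lemma Nice.mp' (N : Nice f g K H) {ν : Measure (ℂ × ℂ)}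
    (hT : MeasurePreserving g ν ν) : MeasurePreserving f ν ν := by
  refine ⟨N.cont.measurable, ?_⟩
  conv_lhs => rw [← hT.map_eq]
  rw [Measure.map_map N.cont.measurable N.cont'.measurable]
  have : f ∘ g = id := funext N.right
  rw [this, Measure.map_id]

lemma Nice.fwd_iter (N : Nice f g K H) {z : ℂ × ℂ} (hz : z ∈ K) (n : ℕ) : f^[n] z ∈ K := by
  induction n with
  | zero => exact hz
  | succ n ih => rw [Function.iterate_succ_apply']; exact N.fwd _ ih

/-- A proper relatively open piece of `K` whose closure is mapped into it gives a splitting. -/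
theorem Nice.split (N : Nice f g K H) {V : Set (ℂ × ℂ)} (hVK : V ⊆ K)
    (hVopen : ∃ O : Set (ℂ × ℂ), IsOpen O ∧ V = K ∩ O) (hne : V.Nonempty) (hproper : V ≠ K)
    (htrap : ∀ z ∈ closure V, f z ∈ V) :
    ∃ (E : Set (ℂ × ℂ)) (ρ : ℝ), 0 < ρ ∧ E ⊆ V ∧ IsCompact E ∧ E.Nonempty ∧
      Split f K E (bump E ρ) H := by
  obtain ⟨O, hO, hVO⟩ := hVopen
  set C := closure V with hC
  have hCK : C ⊆ K := closure_minimal hVK N.cpt.isClosed
  have hVC : V ⊆ C := subset_closure
  have hCcpt : IsCompact C := N.cpt.of_isClosed_subset isClosed_closure hCK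
  have hinvC : ∀ z ∈ C, f z ∈ C := fun z hz => hVC (htrap z hz)
  have hit : ∀ (n : ℕ) (z : ℂ × ℂ), z ∈ C → f^[n] z ∈ C := by
    intro n z hz
    induction n with
    | zero => exact hz
    | succ n ih => rw [Function.iterate_succ_apply']; exact hinvC _ ih
  have hgf : ∀ (n : ℕ) (z : ℂ × ℂ), g^[n] (f^[n] z) = z := fun n z =>
    (Function.LeftInverse.iterate N.left n) z
  have hfg : ∀ (n : ℕ) (z : ℂ × ℂ), f^[n] (g^[n] z) = z := fun n z =>
    (Function.LeftInverse.iterate N.right n) z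
  -- the attractor
  set A : Set (ℂ × ℂ) := {z | ∀ n : ℕ, g^[n] z ∈ C} with hA
  have hAC : A ⊆ C := fun z hz => hz 0
  have hAclosed : IsClosed A := by
    have : A = ⋂ n : ℕ, (g^[n]) ⁻¹' C := by
      ext z; simp [hA]
    rw [this]
    exact isClosed_iInter fun n => isClosed_closure.preimage (N.cont'.iterate n)
  have hAcpt : IsCompact A := hCcpt.of_isClosed_subset hAclosed hAC
  have hAV : A ⊆ V := by
    intro z hz
    have h1 : g z ∈ C := hz 1
    have h2 := htrap _ h1
    rwa [N.right] at h2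
  have hApre : f ⁻¹' A = A := by
    ext z
    constructor
    · intro hz n
      have := hz (n + 1)
      rw [Function.iterate_succ_apply, N.left] at this
      exact this
    · intro hz n
      cases n with
      | zero => exact hinvC _ (hAC hz)
      | succ n =>
        show g^[n + 1] (f z) ∈ C
        rw [Function.iterate_succ_apply, N.left]
        exact hz n
  -- the dual repeller
  set W : Set (ℂ × ℂ) := K \ V with hW
  have hWclosed : IsClosed W := by
    have : W = K ∩ Oᶜ := by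
      rw [hW, hVO]
      ext z
      simp only [Set.mem_sdiff, Set.mem_inter_iff, Set.mem_compl_iff]
      tauto
    rw [this]
    exact N.cpt.isClosed.inter hO.isClosed_compl
  have hWcpt : IsCompact W := N.cpt.of_isClosed_subset hWclosed Set.sdiff_subset
  have hWne : W.Nonempty := by
    rw [hW, Set.sdiff_nonempty]
    intro h
    exact hproper (Set.Subset.antisymm hVK h)
  have hWg : ∀ z ∈ W, g z ∈ W := by
    rintro z ⟨hz1, hz2⟩
    refine ⟨N.bwd z hz1, ?_⟩
    intro h
    apply hz2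
    have := htrap _ (hVC h)
    rwa [N.right] at this
  set B : Set (ℂ × ℂ) := {z | ∀ n : ℕ, f^[n] z ∈ W} with hB
  have hBclosed : IsClosed B := by
    have : B = ⋂ n : ℕ, (f^[n]) ⁻¹' W := by
      ext z; simp [hB]
    rw [this]
    exact isClosed_iInter fun n => hWclosed.preimage (N.cont.iterate n)
  have hBcpt : IsCompact B := hWcpt.of_isClosed_subset hBclosed (fun z hz => hz 0)
  have hAB : Disjoint A B := by
    rw [Set.disjoint_left]
    intro z hz1 hz2
    exact (hz2 0).2 (hAV hz1)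
  -- invariant measures
  have hrec : ∀ ν : Measure (ℂ × ℂ), IsInvariantProb f ν → ∀ᵐ z ∂ν, z ∈ A ∨ z ∈ B := by
    intro ν hν
    have hp := hν.1
    filter_upwards [N.supp ν hν, hν.2.conservative.ae_frequently_mem_of_mem_nhds] with z hzK hzr
    by_cases hzB : z ∈ B
    · exact Or.inr hzB
    left
    have h1 : ∃ n : ℕ, f^[n] z ∈ V := by
      by_contra hcon
      push Not at hcon
      exact hzB fun n => ⟨N.fwd_iter hzK n, hcon n⟩
    obtain ⟨n, hn⟩ := h1
    intro j
    have hcl : IsClosed ((g^[j]) ⁻¹' C) := isClosed_closure.preimage (N.cont'.iterate j)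
    by_contra hcon
    have hopen : ((g^[j]) ⁻¹' C)ᶜ ∈ 𝓝 z := hcl.isOpen_compl.mem_nhds hcon
    have h2 := hzr _ hopen
    rw [frequently_atTop] at h2
    obtain ⟨k, hk, hk2⟩ := h2 (n + j)
    apply hk2
    show g^[j] (f^[k] z) ∈ C
    have h3 : k = j + ((k - (n + j)) + n) := by omega
    rw [h3, Function.iterate_add_apply, hgf, Function.iterate_add_apply]
    exact hit _ _ (hVC hn)
  obtain ⟨νA, hνA1, hνA2, hνA3⟩ := exists_measure N.cont hCcpt (hne.mono hVC) hinvC
  obtain ⟨νB, hνB1, hνB2, hνB3⟩ := exists_measure N.cont' hWcpt hWne hWg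
  have hνA : ∀ᵐ z ∂νA, z ∈ A := by
    have h1 : ∀ᵐ z ∂νA, z ∈ C := by
      rw [ae_iff]
      exact hνA3
    have h2 : ∀ n : ℕ, ∀ᵐ z ∂νA, g^[n] z ∈ C := fun n =>
      ((N.mp hνA2).iterate n).quasiMeasurePreserving.ae h1
    filter_upwards [ae_all_iff.2 h2] with z hz
    exact hz
  have hνB : ∀ᵐ z ∂νB, z ∈ W := by
    rw [ae_iff]
    exact hνB3
  have hAne : A.Nonempty := by
    by_contra hcon
    rw [Set.not_nonempty_iff_eq_empty] at hcon
    have h1 : ∀ᵐ z ∂νA, False := by
      filter_upwards [hνA] with z hz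
      rw [hcon] at hz
      exact hz
    rw [eventually_false_iff_eq_bot, ae_eq_bot] at h1
    have h2 := hνA1.measure_univ
    rw [h1] at h2
    simp at h2
  obtain ⟨ρ, hρ, hρB⟩ : ∃ ρ : ℝ, 0 < ρ ∧ ∀ z ∈ B, ρ ≤ Metric.infDist z A := by
    obtain ⟨δ, hδ, hth⟩ := hAcpt.exists_thickening_subset_open hBclosed.isOpen_compl
      (Set.subset_compl_iff_disjoint_right.2 hAB)
    refine ⟨δ, hδ, ?_⟩
    intro z hz
    by_contra h
    push Not at h
    exact hth ((Metric.mem_thickening_iff_infDist_lt hAne).2 h) hz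
  refine ⟨A, ρ, hρ, hAV, hAcpt, hAne, ⟨N.cpt, N.supp, hAclosed.measurableSet, hApre,
    bump_continuous A ρ, ?_, ?_, N.bound, ⟨νA, ⟨hνA1, hνA2⟩, ?_⟩, ⟨νB, ⟨hνB1, N.mp' hνB2⟩, ?_⟩⟩⟩
  · intro ν _
    exact Eventually.of_forall fun z hz => bump_mem hz
  · intro ν hν
    filter_upwards [hrec ν hν] with z hz hzA
    exact bump_eq_zero hρ (hρB z (hz.resolve_left hzA))
  · exact hνA
  · apply measure_eq_zero_iff_ae_notMem.2
    filter_upwards [hνB] with z hz hzA
    exact hz.2 (hAV hzA)

end Pool.Agent.Y203.EQ
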