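import Pool.Agent.Y203.EQ.Block

/-! Chain transitivity and attracting blocks. -/

set_option autoImplicit false

open MeasureTheory Filter Topology
open scoped ENNReal NNReal

namespace Pool.Agent.Y203.EQ

open Pool.Agent.Helper179.KS Pool.Agent.Helper179.Eq Pool.Agent.Y203.HN

/-- `f` is chain transitive on `K`: for every `ε > 0` any two points of `K` are joined by an
`ε`-pseudo-orbit of length at least one in `K`. -/
def ChainTransitive (f : ℂ × ℂ → ℂ × ℂ) (K : Set (ℂ × ℂ)) : Prop :=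
  ∀ ε : ℝ, 0 < ε → ∀ x ∈ K, ∀ y ∈ K,
    Relation.TransGen (fun a b => a ∈ K ∧ b ∈ K ∧ dist (f a) b < ε) x y

/-- A proper attracting block of `K`. -/
def IsBlock (f : ℂ × ℂ → ℂ × ℂ) (K V : Set (ℂ × ℂ)) : Prop :=
  V ⊆ K ∧ (∃ O : Set (ℂ × ℂ), IsOpen O ∧ V = K ∩ O) ∧ V.Nonempty ∧ V ≠ K ∧
    ∀ z ∈ closure V, f z ∈ V

variable {f g : ℂ × ℂ → ℂ × ℂ} {K : Set (ℂ × ℂ)} {H : ℝ}

lemma Nice.exists_block (N : Nice f g K H) (h : ¬ ChainTransitive f K) :
    ∃ V, IsBlock f K V := by
  unfold ChainTransitive at h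
  push Not at h
  obtain ⟨ε, hε, x, hx, y, hy, hxy⟩ := h
  set st : ℂ × ℂ → ℂ × ℂ → Prop := fun a b => a ∈ K ∧ b ∈ K ∧ dist (f a) b < ε with hst
  set V : Set (ℂ × ℂ) := {z | Relation.TransGen st x z} with hV
  have hVK : V ⊆ K := by
    intro z hz
    cases hz with
    | single h => exact h.2.1
    | tail _ h => exact h.2.1
  set I : Set (ℂ × ℂ) := {a | (a = x ∨ Relation.TransGen st x a) ∧ a ∈ K} with hI
  refine ⟨V, hVK, ⟨⋃ a ∈ I, Metric.ball (f a) ε, ?_, ?_⟩, ?_, ?_, ?_⟩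
  · exact isOpen_biUnion fun a _ => Metric.isOpen_ball
  · ext z
    constructor
    · intro hz
      refine ⟨hVK hz, ?_⟩
      rw [Set.mem_iUnion₂]
      cases hz with
      | single h => exact ⟨x, ⟨Or.inl rfl, hx⟩, by rw [Metric.mem_ball, dist_comm]; exact h.2.2⟩
      | tail h1 h => exact ⟨_, ⟨Or.inr h1, h.1⟩, by rw [Metric.mem_ball, dist_comm]; exact h.2.2⟩
    · rintro ⟨hzK, hz⟩
      rw [Set.mem_iUnion₂] at hz
      obtain ⟨a, ⟨ha, haK⟩, haz⟩ := hz
      rw [Metric.mem_ball, dist_comm] at haz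
      rcases ha with rfl | ha
      · exact Relation.TransGen.single ⟨haK, hzK, haz⟩
      · exact Relation.TransGen.tail ha ⟨haK, hzK, haz⟩
  · refine ⟨f x, Relation.TransGen.single ⟨hx, N.fwd x hx, ?_⟩⟩
    rw [dist_self]
    exact hε
  · intro h
    rw [← h] at hy
    exact hxy hy
  · intro w hw
    have hwK : w ∈ K := closure_minimal hVK N.cpt.isClosed hw
    have hnb : {z | dist (f z) (f w) < ε} ∈ 𝓝 w := by
      have hc : Continuous fun z => dist (f z) (f w) := N.cont.dist continuous_const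
      exact (isOpen_lt hc continuous_const).mem_nhds (by simpa using hε)
    obtain ⟨z, hz1, hz2⟩ := mem_closure_iff_nhds.1 hw _ hnb
    exact Relation.TransGen.tail hz2 ⟨hVK hz2, N.fwd w hwK, hz1⟩

lemma Nice.not_chain (N : Nice f g K H) {V : Set (ℂ × ℂ)} (h : IsBlock f K V) :
    ¬ ChainTransitive f K := by
  obtain ⟨hVK, ⟨O, hO, hVO⟩, ⟨x, hx⟩, hproper, htrap⟩ := h
  intro hct
  have hCK : closure V ⊆ K := closure_minimal hVK N.cpt.isClosed
  have hCcpt : IsCompact (closure V) := N.cpt.of_isClosed_subset isClosed_closure hCK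
  have himg : IsCompact (f '' closure V) := hCcpt.image N.cont
  have hsub : f '' closure V ⊆ O := by
    rintro _ ⟨z, hz, rfl⟩
    have := htrap z hz
    rw [hVO] at this
    exact this.2
  obtain ⟨ε, hε, hth⟩ := himg.exists_thickening_subset_open hO hsub
  obtain ⟨y, hyK, hyV⟩ : ∃ y ∈ K, y ∉ V := by
    by_contra hcon
    push Not at hcon
    exact hproper (Set.Subset.antisymm hVK hcon)
  have key : ∀ z, Relation.TransGen (fun a b => a ∈ K ∧ b ∈ K ∧ dist (f a) b < ε) x z →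
      z ∈ V := by
    have hstep : ∀ a b : ℂ × ℂ, a ∈ V → (a ∈ K ∧ b ∈ K ∧ dist (f a) b < ε) → b ∈ V := by
      intro a b ha hab
      rw [hVO]
      refine ⟨hab.2.1, hth ?_⟩
      rw [Metric.mem_thickening_iff]
      exact ⟨f a, ⟨a, subset_closure ha, rfl⟩, by rw [dist_comm]; exact hab.2.2⟩
    intro z hz
    induction hz with
    | single h => exact hstep _ _ hx h
    | tail _ h ih => exact hstep _ _ ih h
  exact hyV (key y (hct ε hε x (hVK hx) y hyK))

/-- A block for the inverse gives a block for the map. -/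
lemma Nice.block_of_inverse (N : Nice f g K H) {V : Set (ℂ × ℂ)} (h : IsBlock g K V) :
    ∃ W, IsBlock f K W := by
  obtain ⟨hVK, ⟨O, hO, hVO⟩, hne, hproper, htrap⟩ := h
  have hCK : closure V ⊆ K := closure_minimal hVK N.cpt.isClosed
  refine ⟨K \ closure V, fun z hz => hz.1, ⟨(closure V)ᶜ, isClosed_closure.isOpen_compl, rfl⟩,
    ?_, ?_, ?_⟩
  · by_contra hcon
    rw [Set.not_nonempty_iff_eq_empty] at hcon
    apply hproper
    apply Set.Subset.antisymm hVK
    intro z hz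
    have h1 : f z ∈ closure V := by
      by_contra h2
      have : f z ∈ K \ closure V := ⟨N.fwd z hz, h2⟩
      rw [hcon] at this
      exact this
    have h2 := htrap _ h1
    rwa [N.left] at h2
  · intro hcon
    obtain ⟨x, hx⟩ := hne
    have : x ∈ K \ closure V := by rw [hcon]; exact hVK hx
    exact this.2 (subset_closure hx)
  · intro z hz
    have h1 : z ∈ K ∩ Oᶜ := by
      have hcl : IsClosed (K ∩ Oᶜ) := N.cpt.isClosed.inter hO.isClosed_compl
      apply closure_minimal _ hcl hz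
      rintro w ⟨hw1, hw2⟩
      refine ⟨hw1, fun hwO => hw2 (subset_closure ?_)⟩
      rw [hVO]
      exact ⟨hw1, hwO⟩
    refine ⟨N.fwd z h1.1, ?_⟩
    intro h2
    have h3 := htrap _ h2
    rw [N.left, hVO] at h3
    exact h1.2 h3.2

/-- Near an attracting cycle there is a block. -/
lemma block_of_contraction {F : ℂ × ℂ → ℂ × ℂ} (hF : Continuous F) {K : Set (ℂ × ℂ)}
    (hK : IsClosed K) (hfwd : ∀ z ∈ K, F z ∈ K) {q : ℕ} {r : ℝ} {p : ℂ × ℂ} (hq : 0 < q)
    (hr : 0 < r) (hcon : ∀ z, ‖z - p‖ < r → ‖F^[q] z - p‖ ≤ 3 / 4 * ‖z - p‖) (hpK : p ∈ K)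
    (hout : ∃ y ∈ K, y ∉ bas F p r) : ∃ V, IsBlock F K V := by
  set t : ℕ → ℝ := fun i => r * (3 / 4 + (q - i : ℝ) / (4 * (q + 1))) with ht
  have hq1 : (0 : ℝ) < q + 1 := by positivity
  have hq0 : (0 : ℝ) < q := by exact_mod_cast hq
  have htlt : ∀ i : ℕ, t (i + 1) < t i := by
    intro i
    simp only [ht]
    apply mul_lt_mul_of_pos_left _ hr
    have : ((q : ℝ) - ((i + 1 : ℕ) : ℝ)) / (4 * (q + 1)) < ((q : ℝ) - i) / (4 * (q + 1)) := by
      apply div_lt_div_of_pos_right _ (by positivity)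
      push_cast
      linarith
    linarith
  have ht0 : t 0 < r := by
    simp only [ht]
    have : ((q : ℝ) - ((0 : ℕ) : ℝ)) / (4 * (q + 1)) < 1 / 4 := by
      rw [div_lt_div_iff₀ (by positivity) (by norm_num)]
      push_cast
      nlinarith
    nlinarith
  have htle : ∀ i, t i < r := by
    intro i
    induction i with
    | zero => exact ht0
    | succ i ih => exact (htlt i).trans ih
  have htq : ∀ i < q, 3 / 4 * r < t i := by
    intro i hi
    simp only [ht]
    have : 0 < ((q : ℝ) - i) / (4 * (q + 1)) := by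
      apply div_pos _ (by positivity)
      have : (i : ℝ) < q := by exact_mod_cast hi
      linarith
    nlinarith
  set T : ℕ → Set (ℂ × ℂ) := fun i => {z | ‖F^[i] z - p‖ < t i} with hT
  have hTo : ∀ i, IsOpen (T i) := fun i =>
    isOpen_lt ((hF.iterate i).sub continuous_const).norm continuous_const
  have hsub : ∀ i, T i ⊆ bas F p r := fun i z hz => ⟨i, lt_trans hz (htle i)⟩
  refine ⟨K ∩ ⋃ i ∈ Finset.range q, T i, Set.inter_subset_left,
    ⟨_, isOpen_biUnion fun i _ => hTo i, rfl⟩, ?_, ?_, ?_⟩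
  · refine ⟨p, hpK, ?_⟩
    rw [Set.mem_iUnion₂]
    refine ⟨0, Finset.mem_range.2 hq, ?_⟩
    show ‖F^[0] p - p‖ < t 0
    have h1 := htq 0 hq
    simp only [Function.iterate_zero, id, sub_self, norm_zero]
    linarith
  · intro hcon2
    obtain ⟨y, hyK, hyb⟩ := hout
    rw [← hcon2] at hyK
    obtain ⟨_, hy⟩ := hyK
    rw [Set.mem_iUnion₂] at hy
    obtain ⟨i, _, hi⟩ := hy
    exact hyb (hsub i hi)
  · intro z hz
    have hcl : IsClosed (K ∩ ⋃ i ∈ Finset.range q, {z | ‖F^[i] z - p‖ ≤ t i}) := by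
      apply hK.inter
      apply Set.Finite.isClosed_biUnion (Finset.finite_toSet _)
      intro i _
      exact isClosed_le ((hF.iterate i).sub continuous_const).norm continuous_const
    have h1 : z ∈ K ∩ ⋃ i ∈ Finset.range q, {z | ‖F^[i] z - p‖ ≤ t i} := by
      apply closure_minimal _ hcl hz
      rintro w ⟨hw1, hw2⟩
      refine ⟨hw1, ?_⟩
      rw [Set.mem_iUnion₂] at hw2 ⊢
      obtain ⟨i, hi, hwi⟩ := hw2
      have hwi' : ‖F^[i] w - p‖ < t i := hwi
      exact ⟨i, hi, hwi'.le⟩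
    obtain ⟨hzK, hz2⟩ := h1
    refine ⟨hfwd z hzK, ?_⟩
    rw [Set.mem_iUnion₂] at hz2 ⊢
    obtain ⟨i, hi, hzi⟩ := hz2
    have hzi' : ‖F^[i] z - p‖ ≤ t i := hzi
    cases i with
    | zero =>
      refine ⟨q - 1, Finset.mem_range.2 (by omega), ?_⟩
      show ‖F^[q - 1] (F z) - p‖ < t (q - 1)
      rw [← Function.iterate_succ_apply, Nat.succ_eq_add_one, Nat.sub_one_add_one hq.ne']
      have h2 : ‖z - p‖ < r := lt_of_le_of_lt hzi' (htle 0)
      have h3 := hcon z h2
      have h4 := htq (q - 1) (by omega)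
      linarith
    | succ i =>
      refine ⟨i, Finset.mem_range.2 (by have := Finset.mem_range.1 hi; omega), ?_⟩
      show ‖F^[i] (F z) - p‖ < t i
      rw [← Function.iterate_succ_apply]
      exact lt_of_le_of_lt hzi' (htlt i)

end Pool.Agent.Y203.EQ
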