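import Pool.Agent.Y203.EQ.Chain
import Pool.Agent.Helper179.Transfer

/-! The set of bounded orbits of a complex Henon map, bounded forward orbits, and the exchange of
the coordinates. -/

set_option autoImplicit false

open MeasureTheory Filter Topology
open scoped ENNReal NNReal

namespace Pool.Agent.Y203.EQ

open Pool.Agent.Helper179.KS Pool.Agent.Helper179.Eq Pool.Agent.Y203.HN

/-- Bounded forward orbits are bounded in terms of the first point, and there are unbounded ones. -/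
def Dich (F : ℂ × ℂ → ℂ × ℂ) : Prop :=
  (∃ R : ℝ, ∀ z, (∃ C : ℝ, ∀ n : ℕ, ‖F^[n] z‖ ≤ C) → ∀ n : ℕ, ‖F^[n] z‖ ≤ max R ‖z‖) ∧
  ∃ z, ∀ C : ℝ, ∃ n : ℕ, C < ‖F^[n] z‖

lemma escape {F : ℂ × ℂ → ℂ × ℂ} {a b : ℂ × ℂ → ℝ} {R : ℝ} (hR : 0 < R)
    (hab : ∀ z, ‖z‖ = max (a z) (b z))
    (h1 : ∀ z, R < a z → b z ≤ a z → 2 * a z ≤ a (F z) ∧ b (F z) ≤ a (F z))
    {z : ℂ × ℂ} (hz1 : R < a z) (hz2 : b z ≤ a z) (C : ℝ) : ∃ n : ℕ, C < ‖F^[n] z‖ := by
  have key : ∀ n : ℕ, 2 ^ n * a z ≤ a (F^[n] z) ∧ b (F^[n] z) ≤ a (F^[n] z) := by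
    intro n
    induction n with
    | zero => simpa using hz2
    | succ n ih =>
      rw [Function.iterate_succ_apply']
      have h2 : (1 : ℝ) ≤ 2 ^ n := one_le_pow₀ (by norm_num)
      have h3 : R < a (F^[n] z) := by nlinarith [ih.1]
      have h4 := h1 _ h3 ih.2
      refine ⟨?_, h4.2⟩
      rw [pow_succ]
      nlinarith [ih.1, h4.1]
  obtain ⟨n, hn⟩ := pow_unbounded_of_one_lt (C / R) (by norm_num : (1 : ℝ) < 2)
  refine ⟨n, ?_⟩
  rw [div_lt_iff₀ hR] at hn
  have h5 : a (F^[n] z) ≤ ‖F^[n] z‖ := by rw [hab]; exact le_max_left _ _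
  have h6 : (0 : ℝ) < 2 ^ n := by positivity
  nlinarith [(key n).1]

lemma dich_of_esc {F : ℂ × ℂ → ℂ × ℂ} {a b : ℂ × ℂ → ℝ} {R : ℝ} (hR : 0 < R)
    (hab : ∀ z, ‖z‖ = max (a z) (b z))
    (h1 : ∀ z, R < a z → b z ≤ a z → 2 * a z ≤ a (F z) ∧ b (F z) ≤ a (F z))
    (h2 : ∀ z, R < b (F z) → a (F z) ≤ b (F z) → 2 * b (F z) ≤ b z ∧ a z ≤ b z)
    (hpt : ∃ z, R < a z ∧ b z ≤ a z) : Dich F := by
  constructor
  · refine ⟨R, ?_⟩
    rintro z ⟨C, hC⟩ n
    have hW : ∀ k : ℕ, ¬ (R < a (F^[k] z) ∧ b (F^[k] z) ≤ a (F^[k] z)) := by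
      rintro k ⟨hk1, hk2⟩
      obtain ⟨n, hn⟩ := escape hR hab h1 hk1 hk2 C
      rw [← Function.iterate_add_apply] at hn
      exact absurd (hC (n + k)) (not_le.2 hn)
    induction n with
    | zero => exact le_max_right _ _
    | succ n ih =>
      have hw := hW (n + 1)
      rw [Function.iterate_succ_apply'] at hw ⊢
      set w := F^[n] z with hwdef
      by_contra hcon
      push Not at hcon
      have hRw : R < ‖F w‖ := lt_of_le_of_lt (le_max_left _ _) hcon
      have hb : R < b (F w) ∧ a (F w) ≤ b (F w) := by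
        rw [hab] at hRw
        rcases lt_max_iff.1 hRw with h | h
        · rcases le_total (b (F w)) (a (F w)) with h3 | h3
          · exact absurd ⟨h, h3⟩ hw
          · exact ⟨lt_of_lt_of_le h h3, h3⟩
        · rcases le_total (b (F w)) (a (F w)) with h3 | h3
          · exact absurd ⟨lt_of_lt_of_le h h3, h3⟩ hw
          · exact ⟨h, h3⟩
      have h4 := (h2 w hb.1 hb.2).1
      have h5 : b w ≤ ‖w‖ := by rw [hab]; exact le_max_right _ _
      have h6 : ‖F w‖ = b (F w) := by rw [hab, max_eq_right hb.2]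
      rw [h6] at hcon
      linarith
  · obtain ⟨z, hz1, hz2⟩ := hpt
    exact ⟨z, fun C => escape hR hab h1 hz1 hz2 C⟩

lemma dich_of_good {f g : ℂ × ℂ → ℂ × ℂ} (G : Good f g) : Dich f ∧ Dich g := by
  obtain ⟨R, hR, hesc⟩ := G.esc
  have hescR := hesc R le_rfl
  constructor
  · apply dich_of_esc (a := fun z => ‖z.2‖) (b := fun z => ‖z.1‖) hR
    · intro z
      rw [Prod.norm_def, max_comm]
    · exact hescR.1
    · exact hescR.2
    · refine ⟨(0, ((R + 1 : ℝ) : ℂ)), ?_, ?_⟩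
      · simp only [Complex.norm_real, Real.norm_eq_abs]
        rw [abs_of_pos (by linarith)]
        linarith
      · simp
  · apply dich_of_esc (a := fun z => ‖z.1‖) (b := fun z => ‖z.2‖) hR
    · intro z
      rw [Prod.norm_def]
    · intro z hz1 hz2
      have := hescR.2 (g z)
      rw [G.right] at this
      exact this hz1 hz2
    · intro z hz1 hz2
      have := hescR.1 (g z) hz1 hz2
      rw [G.right] at this
      exact this
    · refine ⟨(((R + 1 : ℝ) : ℂ), 0), ?_, ?_⟩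
      · simp only [Complex.norm_real, Real.norm_eq_abs]
        rw [abs_of_pos (by linarith)]
        linarith
      · simp

/-- The full orbit as a function on the integers. -/
lemma orbit_eq {f g : ℂ × ℂ → ℂ × ℂ} (hgf : ∀ z, g (f z) = z) {w : ℤ → ℂ × ℂ}
    (hw : ∀ k : ℤ, f (w k) = w (k + 1)) (k : ℤ) (n : ℕ) :
    f^[n] (w k) = w (k + n) ∧ g^[n] (w k) = w (k - n) := by
  induction n with
  | zero => simp
  | succ n ih =>
    rw [Function.iterate_succ_apply', Function.iterate_succ_apply', ih.1, ih.2]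
    constructor
    · rw [hw]
      congr 1
      push_cast
      ring
    · have h1 : w (k - n) = f (w (k - (n + 1 : ℕ))) := by
        rw [hw]
        congr 1
        push_cast
        ring
      rw [h1, hgf]

/-- The set of bounded orbits is the set of the orbits in the polydisc. -/
lemma KK_eq {f g : ℂ × ℂ → ℂ × ℂ} (G : Good f g) {R : ℝ} (hR : 0 < R) (hesc : EscAt f R) :
    KK f g R = boundedOrbits f := by
  apply Set.Subset.antisymm (KK_subset G R)
  rintro z ⟨w, hw0, hw, hb⟩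
  rw [isBounded_iff_forall_norm_le] at hb
  obtain ⟨C, hC⟩ := hb
  have hCk : ∀ k : ℤ, ‖w k‖ ≤ C := fun k => hC _ ⟨k, rfl⟩
  have hbox : ∀ k : ℤ, ‖w k‖ ≤ R := by
    intro k
    by_contra hcon
    push Not at hcon
    rw [Prod.norm_def] at hcon
    have hA : ¬ (R < ‖(w k).2‖ ∧ ‖(w k).1‖ ≤ ‖(w k).2‖) := by
      rintro ⟨h1, h2⟩
      obtain ⟨n, hn⟩ := escape (F := f) (a := fun z => ‖z.2‖) (b := fun z => ‖z.1‖) hR
        (fun z => by rw [Prod.norm_def, max_comm]) hesc.1 h1 h2 C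
      rw [(orbit_eq G.left hw k n).1] at hn
      exact absurd (hCk _) (not_le.2 hn)
    have hB : ¬ (R < ‖(w k).1‖ ∧ ‖(w k).2‖ ≤ ‖(w k).1‖) := by
      rintro ⟨h1, h2⟩
      obtain ⟨n, hn⟩ := escape (F := g) (a := fun z => ‖z.1‖) (b := fun z => ‖z.2‖) hR
        (fun z => by rw [Prod.norm_def]) (by
          intro z hz1 hz2
          have := hesc.2 (g z)
          rw [G.right] at this
          exact this hz1 hz2) h1 h2 C
      rw [(orbit_eq G.left hw k n).2] at hn
      exact absurd (hCk _) (not_le.2 hn)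
    rcases lt_max_iff.1 hcon with h | h
    · rcases le_total (‖(w k).2‖) (‖(w k).1‖) with h3 | h3
      · exact hB ⟨h, h3⟩
      · exact hA ⟨lt_of_lt_of_le h h3, h3⟩
    · rcases le_total (‖(w k).2‖) (‖(w k).1‖) with h3 | h3
      · exact hB ⟨lt_of_lt_of_le h h3, h3⟩
      · exact hA ⟨h, h3⟩
  intro n
  rw [← hw0, (orbit_eq G.left hw 0 n).1, (orbit_eq G.left hw 0 n).2]
  exact ⟨hbox _, hbox _⟩

theorem nice_of_good {f g : ℂ × ℂ → ℂ × ℂ} (G : Good f g) :
    ∃ H : ℝ, 0 ≤ H ∧ Nice f g (boundedOrbits f) H := by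
  obtain ⟨R, hR, hesc⟩ := G.esc
  have hescR := hesc R le_rfl
  obtain ⟨H, hH0, hH⟩ := entropy_bound G hR hescR
  have hK := KK_eq G hR hescR
  refine ⟨H, hH0, G.cont, G.cont', G.left, G.right, ?_, ?_, ?_, ?_, ?_⟩
  · rw [← hK]; exact KK_compact G R
  · rintro z ⟨w, hw0, hw, hb⟩
    refine ⟨fun k => w (k + 1), by simp [← hw0, hw], fun k => hw (k + 1), ?_⟩
    apply hb.subset
    rintro _ ⟨k, rfl⟩
    exact ⟨k + 1, rfl⟩
  · rintro z ⟨w, hw0, hw, hb⟩
    refine ⟨fun k => w (k - 1), ?_, ?_, ?_⟩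
    · have h := (orbit_eq G.left hw 0 1).2
      simp only [Function.iterate_one] at h
      rw [← hw0, h]
      simp
    · intro k
      rw [hw]
      congr 1
      ring
    · apply hb.subset
      rintro _ ⟨k, rfl⟩
      exact ⟨k - 1, rfl⟩
  · intro ν hν
    rw [← hK]
    exact KK_supp G hR hescR ν hν.1 hν.2
  · intro ν hν
    exact hH ν hν.1 hν.2

/-- Exchange of the coordinates. -/
lemma boundedOrbits_conj (f : ℂ × ℂ → ℂ × ℂ) :
    boundedOrbits (conj f) = Prod.swap ⁻¹' boundedOrbits f := by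
  have key : ∀ (h : ℂ × ℂ → ℂ × ℂ) (z : ℂ × ℂ), z ∈ boundedOrbits h →
      z.swap ∈ boundedOrbits (conj h) := by
    rintro h z ⟨w, hw0, hw, hb⟩
    refine ⟨fun k => (w k).swap, by simp only [hw0], ?_, ?_⟩
    · intro k
      simp only [conj, Prod.swap_swap, hw]
    · rw [isBounded_iff_forall_norm_le] at hb ⊢
      obtain ⟨C, hC⟩ := hb
      refine ⟨C, ?_⟩
      rintro _ ⟨k, rfl⟩
      have := hC _ ⟨k, rfl⟩
      simpa [Prod.norm_def, max_comm] using this
  ext z
  constructor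
  · intro hz
    have := key _ _ hz
    rwa [conj_conj] at this
  · intro hz
    have := key _ _ hz
    simpa using this

lemma nice_conj {f g : ℂ × ℂ → ℂ × ℂ} {H : ℝ} (N : Nice f g (boundedOrbits f) H) :
    Nice (conj f) (conj g) (boundedOrbits (conj f)) H := by
  rw [boundedOrbits_conj]
  refine ⟨?_, ?_, ?_, ?_, ?_, ?_, ?_, ?_, ?_⟩
  · exact continuous_swap.comp (N.cont.comp continuous_swap)
  · exact continuous_swap.comp (N.cont'.comp continuous_swap)
  · intro z
    simp [conj, N.left]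
  · intro z
    simp [conj, N.right]
  · have : Prod.swap ⁻¹' boundedOrbits f = Prod.swap '' boundedOrbits f := by
      rw [Set.image_swap_eq_preimage_swap]
    rw [this]
    exact N.cpt.image continuous_swap
  · intro z hz
    simp only [Set.mem_preimage, conj, Prod.swap_swap]
    exact N.fwd _ hz
  · intro z hz
    simp only [Set.mem_preimage, conj, Prod.swap_swap]
    exact N.bwd _ hz
  · intro ν hν
    have h1 := isInvariantProb_map_swap hν
    rw [conj_conj] at h1
    have h2 := N.supp _ h1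
    exact (ae_map_iff measurable_swap.aemeasurable N.cpt.measurableSet).1 h2
  · intro ν hν
    have h1 := isInvariantProb_map_swap hν
    rw [conj_conj] at h1
    have h2 := N.bound _ h1
    have h3 := ksEntropy_map_swap (conj f) ν
    rw [conj_conj] at h3
    rwa [h3] at h2

lemma norm_swap (z : ℂ × ℂ) : ‖z.swap‖ = ‖z‖ := by
  simp [Prod.norm_def, max_comm]

lemma dich_conj {F : ℂ × ℂ → ℂ × ℂ} (h : Dich F) : Dich (conj F) := by
  obtain ⟨⟨R, hR⟩, z, hz⟩ := h
  refine ⟨⟨R, ?_⟩, z.swap, ?_⟩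
  · rintro z ⟨C, hC⟩ n
    have h1 := hR z.swap ⟨C, fun n => by
      have := hC n
      rwa [conj_iterate, norm_swap] at this⟩ n
    rwa [conj_iterate, norm_swap, ← norm_swap z]
  · intro C
    obtain ⟨n, hn⟩ := hz C
    refine ⟨n, ?_⟩
    rw [conj_iterate, norm_swap, Prod.swap_swap]
    exact hn

end Pool.Agent.Y203.EQ
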