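import Pool.Agent.Y203.EQ.Conv

/-! Attracting and repelling cycles destroy chain transitivity. -/

set_option autoImplicit false

open MeasureTheory Filter Topology
open scoped ENNReal NNReal

namespace Pool.Agent.Y203.EQ

open Pool.Agent.Helper179.KS Pool.Agent.Helper179.Eq Pool.Agent.Y203.HN

variable {f g : ℂ × ℂ → ℂ × ℂ} {K : Set (ℂ × ℂ)} {H : ℝ}

/-- A repelling cycle is attracting for the inverse. -/
lemma rep_inverse' (hf : Differentiable ℂ f) (hg : Differentiable ℂ g) (left : ∀ z, g (f z) = z)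
    (right : ∀ z, f (g z) = z) {m : ℕ} {p : ℂ × ℂ} (h : Rep f m p) : Att g m p := by
  obtain ⟨hm, hp, he⟩ := h
  have hgp : g^[m] p = p := by
    conv_lhs => rw [← hp]
    exact (Function.LeftInverse.iterate left m) p
  refine ⟨hm, hgp, ?_⟩
  intro c hc
  obtain ⟨w, hw⟩ := hc.exists_hasEigenvector
  have hw1 : fderiv ℂ (g^[m]) p w = c • w := hw.apply_eq_smul
  have d1 : HasFDerivAt (g^[m]) (fderiv ℂ (g^[m]) p) p := ((hg.iterate m) p).hasFDerivAt
  have d2 : HasFDerivAt (f^[m]) (fderiv ℂ (f^[m]) p) (g^[m] p) := by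
    rw [hgp]
    exact ((hf.iterate m) p).hasFDerivAt
  have d3 := d2.comp p d1
  have hid : f^[m] ∘ g^[m] = id := by
    funext y
    exact (Function.LeftInverse.iterate right m) y
  rw [hid] at d3
  have h3 : (fderiv ℂ (f^[m]) p).comp (fderiv ℂ (g^[m]) p) = ContinuousLinearMap.id ℂ (ℂ × ℂ) :=
    d3.unique (hasFDerivAt_id p)
  have h4 : fderiv ℂ (f^[m]) p (fderiv ℂ (g^[m]) p w) = w := by
    change (fderiv ℂ (f^[m]) p).comp (fderiv ℂ (g^[m]) p) w = w
    rw [h3]; rfl
  rw [hw1, map_smul] at h4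
  have hc0 : c ≠ 0 := by
    rintro rfl
    rw [zero_smul] at h4
    exact hw.2 h4.symm
  have h5 : fderiv ℂ (f^[m]) p w = c⁻¹ • w := by
    conv_rhs => rw [← h4, smul_smul, inv_mul_cancel₀ hc0, one_smul]
  have h6 := he c⁻¹ (Module.End.hasEigenvalue_of_hasEigenvector
    ⟨Module.End.mem_eigenspace_iff.2 h5, hw.2⟩)
  rw [norm_inv] at h6
  have h7 : 0 < ‖c‖ := norm_pos_iff.2 hc0
  by_contra hcon
  push Not at hcon
  have h8 : ‖c‖⁻¹ ≤ 1 := inv_le_one_of_one_le₀ hcon
  linarith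

/-- The basin of an attracting cycle does not contain all bounded orbits. -/
lemma exists_outside {F : ℂ × ℂ → ℂ × ℂ} (hF : Continuous F) (hD : Dich F) {m q : ℕ} {r : ℝ}
    {p : ℂ × ℂ} (hm : 0 < m) (hp : F^[m] p = p) (hq : 0 < q) (hr : 0 < r)
    (hcon : ∀ z, ‖z - p‖ < r → ‖F^[q] z - p‖ ≤ 3 / 4 * ‖z - p‖)
    (hsupp : ∀ ν : Measure (ℂ × ℂ), IsProbabilityMeasure ν → MeasurePreserving F ν ν →
      ∀ᵐ z ∂ν, z ∈ K) : ∃ y ∈ K, y ∉ bas F p r := by
  obtain ⟨⟨R, hR⟩, z₁, hz₁⟩ := hD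
  have hopen := bas_open hF p r
  -- points of the basin have bounded forward orbits
  have hbdd : ∀ z ∈ bas F p r, ∃ C : ℝ, ∀ n : ℕ, ‖F^[n] z‖ ≤ C := by
    intro z hz
    obtain ⟨C₀, hC₀⟩ := ((orb_finite hm hp).isBounded.subset_ball (0 : ℂ × ℂ)) |>.imp fun _ h => h
    have h1 := eventually_near hF hq hcon hz (V := Metric.ball (0 : ℂ × ℂ) C₀)
      Metric.isOpen_ball (fun i => hC₀ ⟨i, rfl⟩)
    obtain ⟨N, hN⟩ := h1.exists_forall_of_atTop
    refine ⟨max C₀ (∑ i ∈ Finset.range N, ‖F^[i] z‖), ?_⟩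
    intro n
    rcases lt_or_ge n N with h | h
    · exact le_max_of_le_right (Finset.single_le_sum (f := fun i => ‖F^[i] z‖)
        (fun i _ => norm_nonneg _) (Finset.mem_range.2 h))
    · have := hN n h
      rw [mem_ball_zero_iff] at this
      exact le_max_of_le_left this.le
  have hne : (bas F p r).Nonempty := ⟨p, 0, by simpa using hr⟩
  have huniv : bas F p r ≠ Set.univ := by
    intro h
    obtain ⟨C, hC⟩ := hbdd z₁ (by rw [h]; trivial)
    obtain ⟨n, hn⟩ := hz₁ C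
    exact absurd (hC n) (not_le.2 hn)
  have hfr : (frontier (bas F p r)).Nonempty := by
    rw [Set.nonempty_iff_ne_empty]
    intro h
    rw [← isClopen_iff_frontier_eq_empty, isClopen_iff] at h
    rcases h with h | h
    · rw [h] at hne
      exact Set.not_nonempty_empty hne
    · exact huniv h
  obtain ⟨z, hz⟩ := hfr
  rw [frontier, hopen.interior_eq] at hz
  obtain ⟨hz1, hz2⟩ := hz
  -- its forward orbit is bounded
  have hzb : ∀ n : ℕ, ‖F^[n] z‖ ≤ max R ‖z‖ := by
    have hcl : IsClosed {w : ℂ × ℂ | ∀ n : ℕ, ‖F^[n] w‖ ≤ max R ‖w‖} := by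
      have : {w : ℂ × ℂ | ∀ n : ℕ, ‖F^[n] w‖ ≤ max R ‖w‖} =
          ⋂ n : ℕ, {w | ‖F^[n] w‖ ≤ max R ‖w‖} := by
        ext w; simp
      rw [this]
      exact isClosed_iInter fun n => isClosed_le (hF.iterate n).norm
        (continuous_const.max continuous_norm)
    exact closure_minimal (fun w hw => hR w (hbdd w hw)) hcl hz1
  -- the orbit closure
  set C : Set (ℂ × ℂ) := closure (Set.range fun n : ℕ => F^[n] z) with hC
  have hCcpt : IsCompact C := by
    apply Metric.isCompact_of_isClosed_isBounded isClosed_closure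
    apply Bornology.IsBounded.closure
    rw [isBounded_iff_forall_norm_le]
    refine ⟨max R ‖z‖, ?_⟩
    rintro _ ⟨n, rfl⟩
    exact hzb n
  have hCne : C.Nonempty := ⟨z, subset_closure ⟨0, rfl⟩⟩
  have hCinv : ∀ w ∈ C, F w ∈ C := by
    intro w hw
    have h1 : Set.MapsTo F (Set.range fun n : ℕ => F^[n] z) (Set.range fun n : ℕ => F^[n] z) := by
      rintro _ ⟨n, rfl⟩
      exact ⟨n + 1, Function.iterate_succ_apply' F n z⟩
    exact h1.closure hF hw
  have hCout : C ⊆ (bas F p r)ᶜ := by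
    apply closure_minimal _ hopen.isClosed_compl
    rintro _ ⟨n, rfl⟩ ⟨i, hi⟩
    apply hz2
    refine ⟨i + n, ?_⟩
    rw [Function.iterate_add_apply]
    exact hi
  obtain ⟨ν, hν1, hν2, hν3⟩ := exists_measure hF hCcpt hCne hCinv
  have h1 : ∀ᵐ w ∂ν, w ∈ C := by
    rw [ae_iff]
    exact hν3
  have h2 := h1.and (hsupp ν hν1 hν2)
  have : NeZero ν := ⟨fun h => by
    have := hν1.measure_univ
    rw [h] at this
    simp at this⟩
  obtain ⟨y, hy1, hy2⟩ := h2.exists
  exact ⟨y, hy2, hCout hy1⟩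

/-- Attracting and repelling cycles destroy chain transitivity on the set of bounded orbits. -/
theorem not_chain_of_cycle (N : Nice f g (boundedOrbits f) H) (hf : Differentiable ℂ f)
    (hg : Differentiable ℂ g) (hDf : Dich f) (hDg : Dich g) {m : ℕ} {p : ℂ × ℂ}
    (h : Att f m p ∨ Rep f m p) : ¬ ChainTransitive f (boundedOrbits f) := by
  have hpK : ∀ {m : ℕ} {p : ℂ × ℂ}, 0 < m → f^[m] p = p → p ∈ boundedOrbits f := by
    intro m p hm hp
    have h1 := N.supp _ (cyc_inv (f := f) (p := p) N.cont.measurable hm hp)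
    unfold cyc at h1
    have hmne : (m : ℝ≥0∞)⁻¹ ≠ 0 := ENNReal.inv_ne_zero.2 (ENNReal.natCast_ne_top m)
    have h2 := (Measure.ae_ennreal_smul_measure_iff hmne).1 h1
    have h3 : ∀ᵐ z ∂(Measure.dirac p : Measure (ℂ × ℂ)), z ∈ boundedOrbits f := by
      apply ae_mono _ h2
      have h4 := Finset.single_le_sum (f := fun i => (Measure.dirac (f^[i] p) : Measure (ℂ × ℂ)))
        (fun i _ => bot_le) (Finset.mem_range.2 hm)
      simpa using h4
    exact (ae_dirac_iff N.cpt.measurableSet).1 h3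
  rcases h with h | h
  · obtain ⟨q, r, hq, hr, _, hcon⟩ := exists_contraction hf h
    have hout := exists_outside (K := boundedOrbits f) N.cont hDf h.1 h.2.1 hq hr hcon
      (fun ν h1 h2 => N.supp ν ⟨h1, h2⟩)
    obtain ⟨V, hV⟩ := block_of_contraction N.cont N.cpt.isClosed N.fwd hq hr hcon
      (hpK h.1 h.2.1) hout
    exact N.not_chain hV
  · have h' := rep_inverse' hf hg N.left N.right h
    obtain ⟨q, r, hq, hr, _, hcon⟩ := exists_contraction hg h'
    have hout := exists_outside (K := boundedOrbits f) N.cont' hDg h'.1 h'.2.1 hq hr hcon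
      (fun ν h1 h2 => N.supp ν ⟨h1, N.mp' h2⟩)
    obtain ⟨V, hV⟩ := block_of_contraction N.cont' N.cpt.isClosed N.bwd hq hr hcon
      (hpK h.1 h.2.1) hout
    obtain ⟨W, hW⟩ := N.block_of_inverse hV
    exact N.not_chain hW

end Pool.Agent.Y203.EQ
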