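import Pool.Agent.Y203.EQ.Split

/-! The first order phase transition along the lines in the direction of `b`. -/

set_option autoImplicit false

open MeasureTheory Filter Topology
open scoped ENNReal NNReal

namespace Pool.Agent.Y203.EQ

open Pool.Agent.Helper179.KS Pool.Agent.Helper179.Eq Pool.Agent.Y203.HN

variable {f : ℂ × ℂ → ℂ × ℂ} {K E : Set (ℂ × ℂ)} {b : ℂ × ℂ → ℝ} {H : ℝ}

/-- Free energies of the measures carried by `E`. -/
def valsL (f : ℂ × ℂ → ℂ × ℂ) (E : Set (ℂ × ℂ)) (ψ : ℂ × ℂ → ℝ) : Set ℝ :=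
  {x | ∃ ν : Measure (ℂ × ℂ), IsInvariantProb f ν ∧ ν Eᶜ = 0 ∧ FE f ψ ν = x}

/-- Free energies of the measures carried by the complement of `E`. -/
def valsR (f : ℂ × ℂ → ℂ × ℂ) (E : Set (ℂ × ℂ)) (ψ : ℂ × ℂ → ℝ) : Set ℝ :=
  {x | ∃ ν : Measure (ℂ × ℂ), IsInvariantProb f ν ∧ ν E = 0 ∧ FE f ψ ν = x}

lemma real_one {ν : Measure (ℂ × ℂ)} (hν : IsInvariantProb f ν) (hE : MeasurableSet E)
    (h : ν Eᶜ = 0) : ν.real E = 1 := by
  have := hν.1
  have h1 : ν E = 1 := (prob_compl_eq_zero_iff hE).1 h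
  simp [Measure.real, h1]

lemma real_zero {ν : Measure (ℂ × ℂ)} (h : ν E = 0) : ν.real E = 0 := by
  simp [Measure.real, h]

lemma compl_zero_of_real {ν : Measure (ℂ × ℂ)} (hν : IsInvariantProb f ν) (hE : MeasurableSet E)
    (h : ν.real E = 1) : ν Eᶜ = 0 := by
  have := hν.1
  rw [prob_compl_eq_zero_iff hE]
  have : ν E = ENNReal.ofReal (ν.real E) := by rw [ofReal_measureReal]
  rw [this, h]
  simp

lemma zero_of_real {ν : Measure (ℂ × ℂ)} (hν : IsInvariantProb f ν) (h : ν.real E = 0) :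
    ν E = 0 := by
  have := hν.1
  have : ν E = ENNReal.ofReal (ν.real E) := by rw [ofReal_measureReal]
  rw [this, h]
  simp

lemma Split.FE_bdd (D : Split f K E b H) {ψ : ℂ × ℂ → ℝ} (hψ : Continuous ψ) :
    ∃ C : ℝ, ∀ ν, IsInvariantProb f ν → FE f ψ ν ≤ C := by
  obtain ⟨C, hC⟩ := D.exists_bound hψ
  refine ⟨H + C, ?_⟩
  intro ν hν
  unfold FE
  have h1 := D.ent_le hν
  have h2 := (abs_le.1 (hC ν hν)).2
  linarith

lemma Split.bddL (D : Split f K E b H) {ψ : ℂ × ℂ → ℝ} (hψ : Continuous ψ) :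
    BddAbove (valsL f E ψ) := by
  obtain ⟨C, hC⟩ := D.FE_bdd hψ
  refine ⟨C, ?_⟩
  rintro x ⟨ν, hν, _, rfl⟩
  exact hC ν hν

lemma Split.bddR (D : Split f K E b H) {ψ : ℂ × ℂ → ℝ} (hψ : Continuous ψ) :
    BddAbove (valsR f E ψ) := by
  obtain ⟨C, hC⟩ := D.FE_bdd hψ
  refine ⟨C, ?_⟩
  rintro x ⟨ν, hν, _, rfl⟩
  exact hC ν hν

lemma Split.neL (D : Split f K E b H) (ψ : ℂ × ℂ → ℝ) : (valsL f E ψ).Nonempty := by
  obtain ⟨ν, hν, h⟩ := D.left
  exact ⟨_, ν, hν, h, rfl⟩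

lemma Split.neR (D : Split f K E b H) (ψ : ℂ × ℂ → ℝ) : (valsR f E ψ).Nonempty := by
  obtain ⟨ν, hν, h⟩ := D.right
  exact ⟨_, ν, hν, h, rfl⟩

/-- Free energies are at most the mean of the two suprema. -/
lemma Split.FE_le (D : Split f K E b H) {ψ : ℂ × ℂ → ℝ} (hψ : Continuous ψ)
    {ν : Measure (ℂ × ℂ)} (hν : IsInvariantProb f ν) :
    FE f ψ ν ≤ ν.real E * sSup (valsL f E ψ) + (1 - ν.real E) * sSup (valsR f E ψ) := by
  have hp := hν.1
  by_cases h0 : ν E = 0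
  · rw [real_zero h0]
    have : FE f ψ ν ≤ sSup (valsR f E ψ) := le_csSup (D.bddR hψ) ⟨ν, hν, h0, rfl⟩
    linarith
  by_cases h1 : ν Eᶜ = 0
  · rw [real_one hν D.mE h1]
    have : FE f ψ ν ≤ sSup (valsL f E ψ) := le_csSup (D.bddL hψ) ⟨ν, hν, h1, rfl⟩
    linarith
  obtain ⟨μ₁, μ₂, hμ₁, hμ₂, hc1, hc2, hle⟩ := D.decomp hν h0 h1
  have h2 : FE f ψ μ₁ ≤ sSup (valsL f E ψ) := le_csSup (D.bddL hψ) ⟨μ₁, hμ₁, hc1, rfl⟩
  have h3 : FE f ψ μ₂ ≤ sSup (valsR f E ψ) := le_csSup (D.bddR hψ) ⟨μ₂, hμ₂, hc2, rfl⟩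
  have h4 : (0 : ℝ) ≤ ν.real E := measureReal_nonneg
  have h5 : ν.real E ≤ 1 := measureReal_le_one
  have h6 := hle ψ hψ
  nlinarith

/-- The pressure along the line. -/
lemma Split.pressure_eq (D : Split f K E b H) {ψ : ℂ × ℂ → ℝ} (hψ : Continuous ψ) (t : ℝ) :
    pressure f (fun z => ψ z + t * b z) =
      ((max (sSup (valsL f E ψ) + t) (sSup (valsR f E ψ)) : ℝ) : EReal) := by
  apply le_antisymm
  · unfold pressure
    apply iSup_le
    intro ν
    apply iSup_le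
    intro hν
    have hp := hν.1
    rw [D.coe_FE hν, EReal.coe_le_coe_iff, D.FE_add hν hψ]
    have h1 := D.FE_le hψ hν
    have h4 : (0 : ℝ) ≤ ν.real E := measureReal_nonneg
    have h5 : ν.real E ≤ 1 := measureReal_le_one
    have h6 := le_max_left (sSup (valsL f E ψ) + t) (sSup (valsR f E ψ))
    have h7 := le_max_right (sSup (valsL f E ψ) + t) (sSup (valsR f E ψ))
    nlinarith
  · have hge : ∀ ν, IsInvariantProb f ν →
        ((FE f ψ ν + t * ν.real E : ℝ) : EReal) ≤ pressure f (fun z => ψ z + t * b z) := by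
      intro ν hν
      rw [← D.FE_add hν hψ, ← D.coe_FE hν]
      exact le_iSup_of_le ν (le_iSup_of_le hν le_rfl)
    induction h : pressure f (fun z => ψ z + t * b z) with
    | bot =>
      obtain ⟨ν, hν, _⟩ := D.left
      have := hge ν hν
      rw [h] at this
      exact absurd (le_bot_iff.1 this) (EReal.coe_ne_bot _)
    | top => exact le_top
    | coe p =>
      rw [EReal.coe_le_coe_iff]
      rw [h] at hge
      apply max_le
      · have : sSup (valsL f E ψ) ≤ p - t := by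
          apply csSup_le (D.neL ψ)
          rintro x ⟨ν, hν, h0, rfl⟩
          have h1 := hge ν hν
          rw [real_one hν D.mE h0, EReal.coe_le_coe_iff] at h1
          linarith
        linarith
      · apply csSup_le (D.neR ψ)
        rintro x ⟨ν, hν, h0, rfl⟩
        have h1 := hge ν hν
        rw [real_zero h0, EReal.coe_le_coe_iff] at h1
        linarith

lemma Split.isEq_iff (D : Split f K E b H) {ψ : ℂ × ℂ → ℝ} (hψ : Continuous ψ) (t : ℝ)
    {ν : Measure (ℂ × ℂ)} : IsEquilibriumState f (fun z => ψ z + t * b z) ν ↔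
      IsInvariantProb f ν ∧
      FE f ψ ν + t * ν.real E = max (sSup (valsL f E ψ) + t) (sSup (valsR f E ψ)) := by
  unfold IsEquilibriumState
  constructor
  · rintro ⟨h1, h2⟩
    refine ⟨h1, ?_⟩
    rw [D.pressure_eq hψ, D.coe_FE h1, D.FE_add h1 hψ] at h2
    exact_mod_cast h2
  · rintro ⟨h1, h2⟩
    refine ⟨h1, ?_⟩
    rw [D.pressure_eq hψ, D.coe_FE h1, D.FE_add h1 hψ, h2]

/-- The first order phase transition along the line `ψ + t b`. -/
theorem Split.phase (D : Split f K E b H) {ψ : ℂ × ℂ → ℝ} (hψ : Continuous ψ) :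
    ∃ tc P₀ : ℝ,
      (∀ t : ℝ, pressure f (fun z => ψ z + t * b z) = ((P₀ + max 0 (t - tc) : ℝ) : EReal)) ∧
      (∀ t : ℝ, tc < t → ∀ ν, IsEquilibriumState f (fun z => ψ z + t * b z) ν → ν Eᶜ = 0) ∧
      (∀ t : ℝ, t < tc → ∀ ν, IsEquilibriumState f (fun z => ψ z + t * b z) ν → ν E = 0) ∧
      ((∃ ν₁ ν₂, IsEquilibriumState f (fun z => ψ z + tc * b z) ν₁ ∧
          IsEquilibriumState f (fun z => ψ z + tc * b z) ν₂ ∧ ν₁ Eᶜ = 0 ∧ ν₂ E = 0) ∨
        (∀ t : ℝ, t < tc → ∀ ν, ¬ IsEquilibriumState f (fun z => ψ z + t * b z) ν) ∨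
        (∀ t : ℝ, tc < t → ∀ ν, ¬ IsEquilibriumState f (fun z => ψ z + t * b z) ν)) ∧
      (∀ l u S : ℝ, (∀ z, l ≤ ψ z ∧ ψ z ≤ u) →
        (∀ ν, IsInvariantProb f ν → ksEntropy ν f ≤ (S : EReal)) → |tc| ≤ S + (u - l)) := by
  set A := sSup (valsL f E ψ) with hA
  set B := sSup (valsR f E ψ) with hB
  have hgt : ∀ t : ℝ, B - A < t → ∀ ν, IsEquilibriumState f (fun z => ψ z + t * b z) ν →
      ν Eᶜ = 0 ∧ FE f ψ ν = A := by
    intro t ht ν h
    rw [D.isEq_iff hψ] at h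
    obtain ⟨h1, h2⟩ := h
    have hp := h1.1
    rw [← hA, ← hB, max_eq_left (by linarith)] at h2
    have h3 := D.FE_le hψ h1
    rw [← hA, ← hB] at h3
    have h4 : (0 : ℝ) ≤ ν.real E := measureReal_nonneg
    have h5 : ν.real E ≤ 1 := measureReal_le_one
    have h6 : ν.real E = 1 := by
      by_contra hne
      have hlt : ν.real E < 1 := lt_of_le_of_ne h5 hne
      nlinarith
    refine ⟨compl_zero_of_real h1 D.mE h6, ?_⟩
    rw [h6] at h2
    linarith
  have hlt : ∀ t : ℝ, t < B - A → ∀ ν, IsEquilibriumState f (fun z => ψ z + t * b z) ν →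
      ν E = 0 ∧ FE f ψ ν = B := by
    intro t ht ν h
    rw [D.isEq_iff hψ] at h
    obtain ⟨h1, h2⟩ := h
    have hp := h1.1
    rw [← hA, ← hB, max_eq_right (by linarith)] at h2
    have h3 := D.FE_le hψ h1
    rw [← hA, ← hB] at h3
    have h4 : (0 : ℝ) ≤ ν.real E := measureReal_nonneg
    have h5 : ν.real E ≤ 1 := measureReal_le_one
    have h6 : ν.real E = 0 := by
      by_contra hne
      have hlt : 0 < ν.real E := lt_of_le_of_ne h4 (Ne.symm hne)
      nlinarith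
    refine ⟨zero_of_real h1 h6, ?_⟩
    rw [h6] at h2
    linarith
  refine ⟨B - A, B, ?_, fun t ht ν h => (hgt t ht ν h).1, fun t ht ν h => (hlt t ht ν h).1,
    ?_, ?_⟩
  · intro t
    rw [D.pressure_eq hψ, ← hA, ← hB]
    congr 1
    rcases le_total (A + t) B with h | h
    · rw [max_eq_right h, max_eq_left (by linarith)]; ring
    · rw [max_eq_left h, max_eq_right (by linarith)]; ring
  · by_cases hAa : A ∈ valsL f E ψ
    · by_cases hBa : B ∈ valsR f E ψ
      · left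
        obtain ⟨ν₁, h1, h2, h3⟩ := hAa
        obtain ⟨ν₂, h4, h5, h6⟩ := hBa
        refine ⟨ν₁, ν₂, (D.isEq_iff hψ _).2 ⟨h1, ?_⟩, (D.isEq_iff hψ _).2 ⟨h4, ?_⟩, h2, h5⟩
        · rw [← hA, ← hB, real_one h1 D.mE h2, h3, max_eq_left (by linarith)]
          ring
        · rw [← hA, ← hB, real_zero h5, h6, max_eq_right (by linarith)]
          ring
      · right; left
        intro t ht ν h
        have h1 := hlt t ht ν h
        exact hBa ⟨ν, h.1, h1.1, h1.2⟩
    · right; right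
      intro t ht ν h
      have h1 := hgt t ht ν h
      exact hAa ⟨ν, h.1, h1.1, h1.2⟩
  · intro l u S hlu hS
    have hfe : ∀ ν, IsInvariantProb f ν → l ≤ FE f ψ ν ∧ FE f ψ ν ≤ S + u := by
      intro ν hν
      have hp := hν.1
      have hi := D.integrable hν hψ
      have h1 : l ≤ ∫ z, ψ z ∂ν := by
        have := integral_mono (integrable_const (μ := ν) l) hi (fun z => (hlu z).1)
        simpa using this
      have h2 : ∫ z, ψ z ∂ν ≤ u := by
        have := integral_mono hi (integrable_const (μ := ν) u) (fun z => (hlu z).2)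
        simpa using this
      have h3 := D.ent_nonneg hν
      have h4 : ent f ν ≤ S := by
        have := hS ν hν
        rw [← D.coe_ent hν] at this
        exact_mod_cast this
      unfold FE
      constructor <;> linarith
    obtain ⟨ν₁, h1, h2⟩ := D.left
    obtain ⟨ν₂, h3, h4⟩ := D.right
    have a1 : l ≤ A := (hfe ν₁ h1).1.trans (le_csSup (D.bddL hψ) ⟨ν₁, h1, h2, rfl⟩)
    have a2 : A ≤ S + u := by
      apply csSup_le (D.neL ψ)
      rintro x ⟨ν, hν, _, rfl⟩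
      exact (hfe ν hν).2
    have b1 : l ≤ B := (hfe ν₂ h3).1.trans (le_csSup (D.bddR hψ) ⟨ν₂, h3, h4, rfl⟩)
    have b2 : B ≤ S + u := by
      apply csSup_le (D.neR ψ)
      rintro x ⟨ν, hν, _, rfl⟩
      exact (hfe ν hν).2
    rw [abs_le]
    constructor <;> linarith

end Pool.Agent.Y203.EQ
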