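import Pool.Agent.Y203.HN.Main

/-! Phase transitions along a direction which is constant on two invariant pieces. -/

set_option autoImplicit false

open MeasureTheory Filter Topology
open scoped ENNReal NNReal

namespace Pool.Agent.Y203.EQ

open Pool.Agent.Helper179.KS Pool.Agent.Helper179.Eq Pool.Agent.Y203.HN

/-- `E` is an invariant set, `b` is `1` on `E` and `0` off `E` for all invariant probability
measures; both `E` and its complement carry invariant probability measures. -/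
structure Split (f : ℂ × ℂ → ℂ × ℂ) (K E : Set (ℂ × ℂ)) (b : ℂ × ℂ → ℝ) (H : ℝ) : Prop where
  cpt : IsCompact K
  supp : ∀ ν : Measure (ℂ × ℂ), IsInvariantProb f ν → ∀ᵐ z ∂ν, z ∈ K
  mE : MeasurableSet E
  pre : f ⁻¹' E = E
  cont : Continuous b
  one : ∀ ν : Measure (ℂ × ℂ), IsInvariantProb f ν → ∀ᵐ z ∂ν, z ∈ E → b z = 1
  zero : ∀ ν : Measure (ℂ × ℂ), IsInvariantProb f ν → ∀ᵐ z ∂ν, z ∉ E → b z = 0
  bound : ∀ ν : Measure (ℂ × ℂ), IsInvariantProb f ν → ksEntropy ν f ≤ (H : EReal)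
  left : ∃ ν : Measure (ℂ × ℂ), IsInvariantProb f ν ∧ ν Eᶜ = 0
  right : ∃ ν : Measure (ℂ × ℂ), IsInvariantProb f ν ∧ ν E = 0

variable {f : ℂ × ℂ → ℂ × ℂ} {K E : Set (ℂ × ℂ)} {b : ℂ × ℂ → ℝ} {H : ℝ}

/-- The entropy as a real number. -/
noncomputable def ent (f : ℂ × ℂ → ℂ × ℂ) (ν : Measure (ℂ × ℂ)) : ℝ := (ksEntropy ν f).toReal

/-- The free energy as a real number. -/
noncomputable def FE (f : ℂ × ℂ → ℂ × ℂ) (φ : ℂ × ℂ → ℝ) (ν : Measure (ℂ × ℂ)) : ℝ :=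
  ent f ν + ∫ z, φ z ∂ν

lemma Split.coe_ent (D : Split f K E b H) {ν : Measure (ℂ × ℂ)} (hν : IsInvariantProb f ν) :
    ((ent f ν : ℝ) : EReal) = ksEntropy ν f := by
  have := hν.1
  unfold ent
  apply EReal.coe_toReal
  · intro h
    have := D.bound ν hν
    rw [h] at this
    exact absurd this (by simp)
  · intro h
    have := ksEntropy_nonneg ν f
    rw [h] at this
    exact absurd this (by simp)

lemma Split.ent_nonneg (D : Split f K E b H) {ν : Measure (ℂ × ℂ)} (hν : IsInvariantProb f ν) :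
    0 ≤ ent f ν := by
  have := hν.1
  have h := ksEntropy_nonneg ν f
  rw [← D.coe_ent hν] at h
  exact_mod_cast h

lemma Split.ent_le (D : Split f K E b H) {ν : Measure (ℂ × ℂ)} (hν : IsInvariantProb f ν) :
    ent f ν ≤ H := by
  have h := D.bound ν hν
  rw [← D.coe_ent hν] at h
  exact_mod_cast h

lemma Split.coe_FE (D : Split f K E b H) {ν : Measure (ℂ × ℂ)} (hν : IsInvariantProb f ν)
    (φ : ℂ × ℂ → ℝ) : freeEnergy f φ ν = ((FE f φ ν : ℝ) : EReal) := by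
  unfold freeEnergy FE
  rw [EReal.coe_add, D.coe_ent hν]

lemma Split.integrable (D : Split f K E b H) {ν : Measure (ℂ × ℂ)} (hν : IsInvariantProb f ν)
    {φ : ℂ × ℂ → ℝ} (hφ : Continuous φ) : Integrable φ ν := by
  have := hν.1
  obtain ⟨C, hC⟩ := (D.cpt.bddAbove_image hφ.norm.continuousOn)
  refine Integrable.mono' (integrable_const C) hφ.measurable.aestronglyMeasurable ?_
  filter_upwards [D.supp ν hν] with z hz
  exact hC ⟨z, hz, rfl⟩

lemma Split.exists_bound (D : Split f K E b H) {φ : ℂ × ℂ → ℝ} (hφ : Continuous φ) :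
    ∃ C : ℝ, ∀ ν, IsInvariantProb f ν → |∫ z, φ z ∂ν| ≤ C := by
  obtain ⟨C, hC⟩ := (D.cpt.bddAbove_image hφ.norm.continuousOn)
  refine ⟨C, ?_⟩
  intro ν hν
  have := hν.1
  have h1 : ‖∫ z, φ z ∂ν‖ ≤ C * ν.real Set.univ := by
    apply norm_integral_le_of_norm_le_const
    filter_upwards [D.supp ν hν] with z hz
    exact hC ⟨z, hz, rfl⟩
  simpa using h1

/-- The integral of `b` is the mass of `E`. -/
lemma Split.integral_b (D : Split f K E b H) {ν : Measure (ℂ × ℂ)} (hν : IsInvariantProb f ν) :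
    ∫ z, b z ∂ν = ν.real E := by
  have := hν.1
  have h1 : b =ᵐ[ν] Set.indicator E (fun _ => (1 : ℝ)) := by
    filter_upwards [D.one ν hν, D.zero ν hν] with z h1 h2
    by_cases h : z ∈ E
    · rw [Set.indicator_of_mem h, h1 h]
    · rw [Set.indicator_of_notMem h, h2 h]
  rw [integral_congr_ae h1, integral_indicator D.mE, setIntegral_const]
  simp

lemma Split.FE_add (D : Split f K E b H) {ν : Measure (ℂ × ℂ)} (hν : IsInvariantProb f ν)
    {ψ : ℂ × ℂ → ℝ} (hψ : Continuous ψ) (t : ℝ) :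
    FE f (fun z => ψ z + t * b z) ν = FE f ψ ν + t * ν.real E := by
  unfold FE
  rw [integral_add (D.integrable hν hψ) ((D.integrable hν D.cont).const_mul t),
    integral_const_mul, D.integral_b hν]
  ring

lemma integral_mix (μ₁ μ₂ : Measure (ℂ × ℂ)) (s t : ℝ≥0) {ψ : ℂ × ℂ → ℝ} (h1 : Integrable ψ μ₁)
    (h2 : Integrable ψ μ₂) :
    ∫ z, ψ z ∂(s • μ₁ + t • μ₂) = s * ∫ z, ψ z ∂μ₁ + t * ∫ z, ψ z ∂μ₂ := by
  rw [integral_add_measure (h1.smul_measure_nnreal) (h2.smul_measure_nnreal),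
    integral_smul_nnreal_measure, integral_smul_nnreal_measure]
  rfl

/-- Decomposition of an invariant measure charging both pieces. -/
lemma Split.decomp (D : Split f K E b H) {ν : Measure (ℂ × ℂ)} (hν : IsInvariantProb f ν)
    (h0 : ν E ≠ 0) (h1 : ν Eᶜ ≠ 0) : ∃ μ₁ μ₂ : Measure (ℂ × ℂ), IsInvariantProb f μ₁ ∧
      IsInvariantProb f μ₂ ∧ μ₁ Eᶜ = 0 ∧ μ₂ E = 0 ∧
      ∀ ψ : ℂ × ℂ → ℝ, Continuous ψ →
        FE f ψ ν ≤ ν.real E * FE f ψ μ₁ + (1 - ν.real E) * FE f ψ μ₂ := by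
  have hp := hν.1
  have hT := hν.2
  have hA := D.mE
  have hTA := D.pre
  set s : ℝ≥0 := (ν E).toNNReal with hs
  set t : ℝ≥0 := (ν Eᶜ).toNNReal with ht
  have hsA : (s : ℝ≥0∞) = ν E := ENNReal.coe_toNNReal (measure_ne_top ν E)
  have htA : (t : ℝ≥0∞) = ν Eᶜ := ENNReal.coe_toNNReal (measure_ne_top ν Eᶜ)
  have hsne : s ≠ 0 := by
    intro h; rw [h] at hsA; exact h0 hsA.symm
  have htne : t ≠ 0 := by
    intro h; rw [h] at htA; exact h1 htA.symm
  set μ₁ : Measure (ℂ × ℂ) := s⁻¹ • ν.restrict E with hμ₁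
  set μ₂ : Measure (ℂ × ℂ) := t⁻¹ • ν.restrict Eᶜ with hμ₂
  have hdec : ν = s • μ₁ + t • μ₂ := by
    rw [hμ₁, hμ₂, smul_smul, smul_smul, mul_inv_cancel₀ hsne, mul_inv_cancel₀ htne, one_smul,
      one_smul, Measure.restrict_add_restrict_compl hA]
  have hp1 : IsProbabilityMeasure μ₁ := by
    constructor
    rw [hμ₁, Measure.smul_apply, Measure.restrict_apply_univ, ← hsA]
    show ((s⁻¹ : ℝ≥0) : ℝ≥0∞) * (s : ℝ≥0∞) = 1
    rw [← ENNReal.coe_mul, inv_mul_cancel₀ hsne]; simp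
  have hp2 : IsProbabilityMeasure μ₂ := by
    constructor
    rw [hμ₂, Measure.smul_apply, Measure.restrict_apply_univ, ← htA]
    show ((t⁻¹ : ℝ≥0) : ℝ≥0∞) * (t : ℝ≥0∞) = 1
    rw [← ENNReal.coe_mul, inv_mul_cancel₀ htne]; simp
  have hr1 : MeasurePreserving f (ν.restrict E) (ν.restrict E) := by
    have := hT.restrict_preimage hA
    rwa [hTA] at this
  have hTAc : f ⁻¹' Eᶜ = Eᶜ := by rw [Set.preimage_compl, hTA]
  have hr2 : MeasurePreserving f (ν.restrict Eᶜ) (ν.restrict Eᶜ) := by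
    have := hT.restrict_preimage hA.compl
    rwa [hTAc] at this
  have hm1 : MeasurePreserving f μ₁ μ₁ := hr1.smul_measure _
  have hm2 : MeasurePreserving f μ₂ μ₂ := hr2.smul_measure _
  have hc1 : μ₁ Eᶜ = 0 := by
    rw [hμ₁, Measure.smul_apply, Measure.restrict_apply hA.compl]; simp
  have hc2 : μ₂ E = 0 := by
    rw [hμ₂, Measure.smul_apply, Measure.restrict_apply hA]; simp
  have hsr : ν.real E = s := rfl
  have htr : (1 - ν.real E) = t := by
    have : ν.real Eᶜ = 1 - ν.real E := by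
      rw [measureReal_compl hA]; simp
    rw [← this]; rfl
  refine ⟨μ₁, μ₂, ⟨hp1, hm1⟩, ⟨hp2, hm2⟩, hc1, hc2, ?_⟩
  intro ψ hψ
  have hent : ent f ν ≤ s * ent f μ₁ + t * ent f μ₂ := by
    have h3 : ksEntropy ν f ≤ ((s * ent f μ₁ + t * ent f μ₂ : ℝ) : EReal) := by
      rw [ksEntropy_le_iff]
      intro k P hP
      have h4 : ksEntropy μ₁ f ≤ ((ent f μ₁ : ℝ) : EReal) := (D.coe_ent ⟨hp1, hm1⟩).ge
      have h5 : ksEntropy μ₂ f ≤ ((ent f μ₂ : ℝ) : EReal) := (D.coe_ent ⟨hp2, hm2⟩).ge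
      rw [ksEntropy_le_iff] at h4 h5
      have key := partitionEntropy_mix_le μ₁ μ₂ s t hT.measurable hP _ _ (h4 k P hP) (h5 k P hP)
      rwa [← hdec] at key
    rw [← D.coe_ent hν] at h3
    exact_mod_cast h3
  have hint : ∫ z, ψ z ∂ν = s * ∫ z, ψ z ∂μ₁ + t * ∫ z, ψ z ∂μ₂ := by
    have hi1 := D.integrable ⟨hp1, hm1⟩ hψ
    have hi2 := D.integrable ⟨hp2, hm2⟩ hψ
    have h6 := integral_mix μ₁ μ₂ s t hi1 hi2
    rwa [← hdec] at h6
  unfold FE
  rw [htr, hsr, hint]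
  nlinarith

end Pool.Agent.Y203.EQ
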